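import Pool.Agent.Lib.MP_291637_al.StrLemmas
import Pool.Agent.Lib.MP_291637_al_h9.Two

/-!
# The triple theorem when two of the structures are rainbow
-/

set_option autoImplicit false

namespace Pool.Agent.BG

variable {V : Type*} {f : V → V → Bool}

namespace Str

/-- An automorphism which preserves or exchanges the halves commutes with the involution. -/
theorem comm_of_halves (P : Str f) {g : Equiv.Perm V} (hg : g ∈ Aut f)
    (hcut : ∀ x y, P.h (g x) = P.h (g y) ↔ P.h x = P.h y) (x : V) :
    g (P.c x) = P.c (g x) := by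
  by_contra hne
  have h1 : P.h (g x) = P.h (g (P.c x)) := by rw [hcut, P.hc]
  obtain ⟨z, hz, hz'⟩ := P.sep (g x) (g (P.c x)) h1
    (fun e => P.fpf x (g.injective e)) hne
  apply hz'
  have e1 := hg x (g⁻¹ z)
  have e2 := hg (P.c x) (g⁻¹ z)
  have e3 : g (g⁻¹ z) = z := by simp
  rw [e3] at e1 e2
  rw [e1, e2]
  refine (P.flat x (g⁻¹ z) ?_).symm
  intro e
  apply hz
  rw [← e3]
  exact ((hcut x (g⁻¹ z)).2 e).symm

end Str

theorem RB.symm {P Q : Str f} (h : RB P Q) : RB Q P := fun x => ⟨(h x).2, (h x).1⟩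

theorem NR.symm {P Q : Str f} (h : NR P Q) : NR Q P := fun x => (h x).symm

theorem bool_eq_of_ne {a b c : Bool} (h1 : a ≠ c) (h2 : b ≠ c) : a = b := by
  revert h1 h2; cases a <;> cases b <;> cases c <;> simp

/-- The involutions of rainbow structures commute. -/
theorem RB.comm {P Q : Str f} (h : RB P Q) (x : V) : P.c (Q.c x) = Q.c (P.c x) := by
  have key := P.comm_of_halves (g := Q.perm) Q.perm_mem (by
    intro x y
    simp only [Str.perm_apply]
    have h1 := (h x).1
    have h2 := (h y).1
    revert h1 h2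
    cases P.h (Q.c x) <;> cases P.h (Q.c y) <;> cases P.h x <;> cases P.h y <;> simp) x
  simp only [Str.perm_apply] at key
  exact key.symm

/-- No point of a block of a rainbow pair is odd. -/
theorem odd_false (hT : TT f) (hf : ∀ x y, f x y = f y x) {P Q R : Str f} (hQR : RB Q R)
    (hPQ : NR P Q) (hPR : NR P R) (x : V) (h1 : P.h (Q.c x) ≠ P.h x)
    (h2 : P.h (R.c x) ≠ P.h x) (h3 : P.h (Q.c (R.c x)) ≠ P.h x) : False := by
  have hq : Q.h (P.c x) = Q.h x := (hPQ x).resolve_left h1
  have hr : R.h (P.c x) = R.h x := (hPR x).resolve_left h2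
  set b := P.half (P.h x) with hb
  have hbm : b ∈ Aut f := P.half_mem hf _
  have hbi : b⁻¹ = b := P.half_inv _
  set D := Q.conj b hbm with hD
  have hDc : ∀ z, D.c z = b (Q.c (b z)) := by
    intro z
    change b (Q.c (b⁻¹ z)) = _
    rw [hbi]
  have hDh : ∀ z, D.h z = Q.h (b z) := by
    intro z
    change Q.h (b⁻¹ z) = _
    rw [hbi]
  have hbx : b x = P.c x := P.half_of_eq rfl
  have h4 : P.h (Q.c (P.c x)) ≠ P.h x := by
    intro e
    apply h1
    apply (hT.tc P Q hPQ x).1
    rw [e, P.hc]
  have e1 : D.c x = Q.c (P.c x) := by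
    rw [hDc, hbx, hb, P.half_of_ne h4]
  have hbR : b (R.c x) = R.c x := P.half_of_ne h2
  have e2 : D.c (R.c x) = Q.c (R.c x) := by
    rw [hDc, hbR, hb, P.half_of_ne h3]
  have e3 : D.h (R.c x) ≠ D.h x := by
    rw [hDh, hDh, hbR, hbx, hq]
    exact (hQR x).1
  have e4 : R.h (D.c x) ≠ R.h x := by
    rw [e1, ← hr]
    exact (hQR (P.c x)).2
  have hDR : RB D R := by
    rcases hT.rb D R with h | h
    · exact h
    · rcases h x with h | h
      · exact absurd h e3
      · exact absurd h e4
  have e5 := hDR.comm x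
  rw [e1, e2, ← hQR.comm] at e5
  exact P.fpf x (R.c_inj (Q.c_inj e5)).symm

/-- The type of a point with respect to a third structure is constant on the blocks of a rainbow
pair. -/
theorem even_block (hT : TT f) (hf : ∀ x y, f x y = f y x) {P Q R : Str f} (hQR : RB Q R)
    (hPQ : NR P Q) (hPR : NR P R) (x : V) :
    P.h (Q.c (R.c x)) = P.h (R.c x) ↔ P.h (Q.c x) = P.h x := by
  have k1 := odd_false hT hf hQR hPQ hPR x
  have k2 := odd_false hT hf hQR hPQ hPR (Q.c x)
  have k3 := odd_false hT hf hQR hPQ hPR (R.c x)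
  have k4 := odd_false hT hf hQR hPQ hPR (Q.c (R.c x))
  rw [Q.cc, ← hQR.comm x, Q.cc] at k2
  rw [R.cc] at k3
  rw [Q.cc, hQR.comm x, R.cc, Q.cc] at k4
  rw [← hQR.comm x] at k4
  revert k1 k2 k3 k4
  cases P.h (Q.c (R.c x)) <;> cases P.h (R.c x) <;> cases P.h (Q.c x) <;> cases P.h x <;> simp

/-- The triple theorem for a rainbow pair. -/
theorem ss_rb (hT : TT f) (hf : ∀ x y, f x y = f y x) {P Q R : Str f} (hQR : RB Q R)
    (hPQ : NR P Q) (hPR : NR P R)
    (hH : ∃ x, P.h (Q.c x) = P.h x ↔ P.h (R.c x) = P.h x) (b e e' : Bool) (x : V) :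
    P.h (R.half e' (Q.half e (P.half b (Q.half e x)))) = P.h (R.half e' x) := by
  have hev := even_block hT hf hQR hPQ hPR
  have hev' : ∀ z, P.h (R.c (Q.c z)) = P.h (Q.c z) ↔ P.h (R.c z) = P.h z :=
    even_block hT hf hQR.symm hPR hPQ
  set v := R.half e' with hv
  have hvm : v ∈ Aut f := R.half_mem hf _
  have hvi : v⁻¹ = v := R.half_inv _
  set D := Q.conj v hvm with hD
  have hDh : ∀ z, D.h z = Q.h (v z) := by
    intro z
    change Q.h (v⁻¹ z) = _
    rw [hvi]
  have hDc : ∀ z, D.c z = Q.c (R.c z) := by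
    intro z
    have h0 : D.c z = v (Q.c (v z)) := by
      change v (Q.c (v⁻¹ z)) = _
      rw [hvi]
    rw [h0]
    have h1 := (hQR z).2
    by_cases hz : R.h z = e'
    · rw [hv, R.half_of_eq hz, R.half_of_ne]
      have := (hQR (R.c z)).2
      rw [R.hc, hz] at this
      exact this
    · rw [hv, R.half_of_ne hz, R.half_of_eq, hQR.comm]
      exact bool_eq_of_ne h1 (Ne.symm hz)
  rcases hT.rb P D with hPD | hPD
  · exfalso
    obtain ⟨z, hz⟩ := hH
    have h1 := (hPD z).1
    rw [hDc] at h1
    have h2 := hev z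
    revert hz h1 h2
    cases P.h (Q.c (R.c z)) <;> cases P.h (R.c z) <;> cases P.h (Q.c z) <;> cases P.h z <;> simp
  -- the remaining case
  set u := Q.half e with hu
  by_cases hbx : P.h (u x) = b
  swap
  · rw [P.half_of_ne hbx, hu, Q.half_half]
  rw [P.half_of_eq hbx]
  set z := u x with hz
  have hx : x = u z := by rw [hz, hu, Q.half_half]
  -- the type with respect to R is the same at all points
  have hRu : ∀ w, (P.h (R.c (u w)) = P.h (u w) ↔ P.h (R.c w) = P.h w) := by
    intro w
    by_cases hw : Q.h w = e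
    · rw [hu, Q.half_of_eq hw]; exact hev' w
    · rw [hu, Q.half_of_ne hw]
  have htR := hT.tc P R hPR z
  have hcl : P.h (u (P.c z)) = P.h (u z) := by
    have := class_two hT hPQ (P.h z) e (u z)
    rw [← hu] at this
    have h2 : u (u z) = z := by rw [hu, Q.half_half]
    rw [h2, P.half_of_eq rfl] at this
    exact this
  by_cases hRz : P.h (R.c z) = P.h z
  · -- R does not cross P
    have h1 : P.h (R.c (u z)) = P.h (u z) := (hRu z).2 hRz
    have h2 : P.h (R.c (u (P.c z))) = P.h (u (P.c z)) := (hRu _).2 (htR.2 hRz)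
    have h3 : ∀ w, P.h (R.c w) = P.h w → P.h (v w) = P.h w := by
      intro w hw
      by_cases hw' : R.h w = e'
      · rw [hv, R.half_of_eq hw', hw]
      · rw [hv, R.half_of_ne hw']
    rw [hx, h3 _ h1, h3 _ h2, hcl]
  · -- R crosses P, so P does not cross R
    have hr : R.h (P.c z) = R.h z := (hPR z).resolve_left hRz
    have hq : Q.h (P.c z) = Q.h z := by
      by_cases hQz : P.h (Q.c z) = P.h z
      · -- then D crosses P
        have h1 : P.h (D.c z) ≠ P.h z := by
          rw [hDc]
          have h2 := hev z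
          revert h2 hRz hQz
          cases P.h (Q.c (R.c z)) <;> cases P.h (R.c z) <;> cases P.h (Q.c z) <;>
            cases P.h z <;> simp
        have h2 := (hPD z).resolve_left h1
        rw [hDh, hDh] at h2
        by_cases hw : R.h z = e'
        · rw [hv, R.half_of_eq (by rw [hr, hw]), R.half_of_eq hw] at h2
          have h3 := (hQR z).1
          have h4 := (hQR (P.c z)).1
          revert h2 h3 h4
          cases Q.h (R.c (P.c z)) <;> cases Q.h (R.c z) <;> cases Q.h (P.c z) <;>
            cases Q.h z <;> simp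
        · rw [hv, R.half_of_ne (by rw [hr]; exact hw), R.half_of_ne hw] at h2
          exact h2
      · exact (hPQ z).resolve_left hQz
    -- both u act in the same way
    have hRz' : ¬ P.h (R.c (P.c z)) = P.h (P.c z) := fun h => hRz (htR.1 h)
    have n1 : ¬ P.h (R.c (u z)) = P.h (u z) := fun h => hRz ((hRu z).1 h)
    have n2 : ¬ P.h (R.c (u (P.c z))) = P.h (u (P.c z)) := fun h => hRz' ((hRu _).1 h)
    have hR : R.h (u (P.c z)) = R.h (u z) := by
      by_cases hw : Q.h z = e
      · rw [hu, Q.half_of_eq (by rw [hq, hw]), Q.half_of_eq hw]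
        have h3 := (hQR z).2
        have h4 := (hQR (P.c z)).2
        revert h3 h4 hr
        cases R.h (Q.c (P.c z)) <;> cases R.h (Q.c z) <;> cases R.h (P.c z) <;>
          cases R.h z <;> simp
      · rw [hu, Q.half_of_ne (by rw [hq]; exact hw), Q.half_of_ne hw, hr]
    rw [hx]
    by_cases hw : R.h (u z) = e'
    · rw [hv, R.half_of_eq (by rw [hR, hw]), R.half_of_eq hw]
      revert n1 n2 hcl
      cases P.h (R.c (u z)) <;> cases P.h (u z) <;> cases P.h (R.c (u (P.c z))) <;>
        cases P.h (u (P.c z)) <;> simp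
    · rw [hv, R.half_of_ne (by rw [hR]; exact hw), R.half_of_ne hw, hcl]

end Pool.Agent.BG
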