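import Pool.Agent.Lib.MP_291637_al_h3.Gen
import Pool.Agent.Lib.MP_291637_al_h3.T128
import Pool.Agent.Lib.MP_291637_al_h3.T11
import Pool.Agent.Lib.MP_291637_al.Assemble

/-!
# From the certificates to the two machine statements

The structures are normalised at the base point, the relators of the coset tables and the links of
the label tables hold, and the two machine statements follow from the master certificates.
-/

set_option autoImplicit false

namespace Pool.Agent.BG.Cert

variable {V : Type*} {f : V → V → Bool}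

/-! ### Normalisation -/

/-- The structure `P`, flipped if necessary, so that the label of `x` is `false`. -/
def norm (P : Str f) (x : V) : Str f := if P.h x = true then P.flip else P

theorem norm_c (P : Str f) (x : V) : (norm P x).c = P.c := by
  unfold norm
  split_ifs <;> rfl

theorem norm_h (P : Str f) (x y : V) : (norm P x).h y = xor (P.h y) (P.h x) := by
  unfold norm
  split_ifs with h
  · change (!P.h y) = _
    rw [h]; simp
  · rw [Bool.not_eq_true] at h
    rw [h]; simp

theorem norm_NR {P Q : Str f} (h : NR P Q) (x : V) : NR (norm P x) (norm Q x) := by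
  intro y
  rw [norm_c, norm_c, norm_h, norm_h, norm_h, norm_h]
  rcases h y with h1 | h1
  · left; rw [h1]
  · right; rw [h1]

/-- Three structures, normalised at the point `x`. -/
def trip (P Q R : Str f) (x : V) : ℕ → Str f
  | 0 => norm P x
  | 1 => norm Q x
  | _ => norm R x

theorem trip0 (P Q R : Str f) (x : V) : trip P Q R x 0 = norm P x := rfl

theorem trip1 (P Q R : Str f) (x : V) : trip P Q R x 1 = norm Q x := rfl

theorem trip2 (P Q R : Str f) (x : V) : trip P Q R x 2 = norm R x := rfl

theorem trip_h (P Q R : Str f) (x : V) (i : ℕ) : (trip P Q R x i).h x = false := by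
  have key : ∀ A : Str f, (norm A x).h x = false := by
    intro A
    rw [norm_h]; simp
  match i with
  | 0 => exact key P
  | 1 => exact key Q
  | _ + 2 => exact key R

/-- The base pairs. -/
def nrp : List (ℕ × ℕ) := [(0, 1), (1, 0), (0, 2), (2, 0), (1, 2), (2, 1)]

theorem NR.symm' {P Q : Str f} (h : NR P Q) : NR Q P := fun x => (h x).symm

theorem trip_nr {P Q R : Str f} (hPQ : NR P Q) (hPR : NR P R) (hQR : NR Q R) (x : V) :
    ∀ a ∈ nrp, NR (trip P Q R x (a.1 % 3)) (trip P Q R x (a.2 % 3)) := by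
  intro a ha
  simp only [nrp, List.mem_cons, List.not_mem_nil, or_false] at ha
  rcases ha with rfl | rfl | rfl | rfl | rfl | rfl
  · exact norm_NR hPQ x
  · exact norm_NR (NR.symm' hPQ) x
  · exact norm_NR hPR x
  · exact norm_NR (NR.symm' hPR) x
  · exact norm_NR hQR x
  · exact norm_NR (NR.symm' hQR) x

/-! ### Relators -/

/-- Sandwich words with three letters act trivially. -/
theorem run_sand (hf : ∀ x y, f x y = f y x) (S : ℕ → Str f) (i j : ℕ) (h : List ℕ)
    (hw : ∀ k ∈ sand i h j, k < 3) (y : V) : run S (sand i h j) y = y := by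
  rw [run_eq_hrun S _ hw]
  apply hrun_sand hf
  · exact hw i (by simp [sand])
  · exact hw j (by simp [sand])

/-- The forms of the relators of the table `t128`. -/
def forms128 : List (ℕ × List ℕ × ℕ) := [(0, [], 2), (1, [], 2), (1, [0], 2), (0, [1], 2),
  (0, [2], 1), (1, [0, 1], 2), (2, [0, 1], 0), (2, [0, 1], 2), (1, [0, 2], 0), (2, [0, 2], 1)]

/-- The forms of the relators of the table `t11`. -/
def forms11 : List (ℕ × List ℕ × ℕ) := [(0, [], 1), (0, [], 2), (1, [], 2), (1, [0], 2),
  (0, [1], 2), (0, [2], 1), (1, [0, 1], 2), (2, [0, 1], 0), (2, [0, 1], 2), (1, [0, 2], 0),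
  (1, [0, 2], 1), (2, [0, 2], 1), (0, [1, 2], 0), (0, [1, 2], 1), (2, [1, 2], 0)]

/-- A word is a sandwich word of the list or one of the extra words. -/
def okRel (forms : List (ℕ × List ℕ × ℕ)) (extra : List (List ℕ)) (w : List ℕ) : Bool :=
  w.all (fun k => Nat.blt k 3) &&
    (forms.any (fun p => w == sand p.1 p.2.1 p.2.2) || extra.any (fun v => w == v))

theorem okRel_sound (hf : ∀ x y, f x y = f y x) (S : ℕ → Str f)
    (forms : List (ℕ × List ℕ × ℕ)) (extra : List (List ℕ))
    (hextra : ∀ w ∈ extra, ∀ y, run S w y = y) {w : List ℕ} (hw : okRel forms extra w = true)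
    (y : V) : run S w y = y := by
  rw [okRel, Bool.and_eq_true, Bool.or_eq_true] at hw
  obtain ⟨h1, h2 | h2⟩ := hw
  · obtain ⟨p, -, hp⟩ := List.any_eq_true.1 h2
    rw [beq_iff_eq] at hp
    have h3 : ∀ k ∈ w, k < 3 := fun k hk => lt_of_blt (List.all_eq_true.1 h1 k hk)
    rw [hp] at h3 ⊢
    exact run_sand hf S _ _ _ h3 y
  · obtain ⟨v, hv, hp⟩ := List.any_eq_true.1 h2
    rw [beq_iff_eq] at hp
    rw [hp]
    exact hextra v hv y

theorem okRel128 : rel128.all (okRel forms128 [[0, 1, 0, 1]]) = true := by decide +kernel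

theorem okRel11 : rel11.all (okRel forms11
    [[0, 2, 0, 2, 1, 0, 2, 0, 2, 1, 0, 2, 0, 2, 1, 0, 2, 0, 2, 1],
     [1, 2, 1, 2, 0, 1, 2, 1, 2, 0, 1, 2, 1, 2, 0, 1, 2, 1, 2, 0]]) = true := by decide +kernel

theorem sound128 (hf : ∀ x y, f x y = f y x) (S : ℕ → Str f)
    (hcomm : ∀ y, (S 0).c ((S 1).c y) = (S 1).c ((S 0).c y)) : t128.Sound S := by
  refine Tab.check_sound check128 S fun w hw y => ?_
  refine okRel_sound hf S _ _ ?_ (List.all_eq_true.1 okRel128 w hw) y
  intro w hw y
  simp only [List.mem_cons, List.not_mem_nil, or_false] at hw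
  subst hw
  change (S 1).c ((S 0).c ((S 1).c ((S 0).c y))) = y
  rw [hcomm, (S 1).cc, (S 0).cc]

/-- The relator of length twenty. -/
theorem rel20' (hf : ∀ x y, f x y = f y x) {P Q R : Str f}
    (h : ∀ y, Q.h (P.c ((P.by R).c (Q.c ((P.by R).c (P.c y))))) = Q.h y) (y : V) :
    Q.c ((P.by R).c (P.c (Q.c ((P.by R).c (P.c (Q.c ((P.by R).c (P.c (Q.c ((P.by R).c
      (P.c y))))))))))) = y := by
  have h1 := rel20 hf h (Q.c y)
  rw [Q.cc] at h1
  have e : ∀ z, (P.by R).c (P.c z) = P.c ((P.by R).c z) := fun z => (by_comm hf P R z).symm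
  rw [e, e, e, e, h1, Q.cc]

theorem sound11 (hf : ∀ x y, f x y = f y x) (S : ℕ → Str f)
    (h1 : ∀ y, (S 1).h ((S 0).c (((S 0).by (S 2)).c ((S 1).c (((S 0).by (S 2)).c
      ((S 0).c y))))) = (S 1).h y)
    (h2 : ∀ y, (S 0).h ((S 1).c (((S 1).by (S 2)).c ((S 0).c (((S 1).by (S 2)).c
      ((S 1).c y))))) = (S 0).h y) : t11.Sound S := by
  refine Tab.check_sound check11 S fun w hw y => ?_
  refine okRel_sound hf S _ _ ?_ (List.all_eq_true.1 okRel11 w hw) y
  intro w hw y
  simp only [List.mem_cons, List.not_mem_nil, or_false] at hw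
  rcases hw with rfl | rfl
  · exact rel20' hf h1 y
  · exact rel20' hf h2 y

/-! ### Links -/

/-- The link is `(i, [i])`, a link `tlink`, or one of the extra links. -/
def okLink (extra : List (ℕ × List ℕ)) (a : ℕ × List ℕ) : Bool :=
  (a.2 == [a.1]) ||
    (a.2 == tlink a.1 (a.2.take ((a.2.length - 3) / 4)) (a.2.getD ((a.2.length - 3) / 4) 0)) ||
    extra.any (fun b => a == b)

theorem okLink_sound (hf : ∀ x y, f x y = f y x) (S : ℕ → Str f) (extra : List (ℕ × List ℕ))
    (hextra : ∀ a ∈ extra, ∀ y, (S (a.1 % 3)).h (run S a.2 y) = (S (a.1 % 3)).h y)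
    {a : ℕ × List ℕ} (h : okLink extra a = true) (y : V) :
    (S (a.1 % 3)).h (run S a.2 y) = (S (a.1 % 3)).h y := by
  rw [okLink, Bool.or_eq_true, Bool.or_eq_true, beq_iff_eq, beq_iff_eq] at h
  rcases h with (h | h) | h
  · rw [h]
    exact Str.hc _ _
  · rw [h]
    exact tlink_h hf S _ _ _ y
  · obtain ⟨b, hb, hp⟩ := List.any_eq_true.1 h
    rw [beq_iff_eq] at hp
    rw [hp]
    exact hextra b hb y

/-- The extra links of the table `t128`. -/
def extra128 : List (ℕ × List ℕ) := [(0, [1]), (1, [0])]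

/-- The extra links of the table `t11`. -/
def extra11 : List (ℕ × List ℕ) :=
  [(1, [0, 2, 0, 2, 1, 2, 0, 2, 0]), (0, [1, 2, 1, 2, 0, 2, 1, 2, 1])]

/-- A structure whose involution commutes with the one of `Q` and which is not rainbow with `Q` has
a cut preserved by `Q`. -/
theorem h_of_comm {P Q : Str f} (hNR : NR P Q) (hcomm : ∀ y, P.c (Q.c y) = Q.c (P.c y)) (x : V) :
    P.h (Q.c x) = P.h x := by
  by_contra hne
  refine no_fix hNR hne ?_
  rw [← hcomm, Q.cc]

theorem valid128 (hf : ∀ x y, f x y = f y x) (S : ℕ → Str f) (h01 : NR (S 0) (S 1))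
    (hcomm : ∀ y, (S 0).c ((S 1).c y) = (S 1).c ((S 0).c y)) (L : Lab)
    (hL : L.links.all (okLink extra128) = true) : L.Valid S := by
  intro a ha y
  refine okLink_sound hf S extra128 ?_ (List.all_eq_true.1 hL a ha) y
  intro a ha y
  simp only [extra128, List.mem_cons, List.not_mem_nil, or_false] at ha
  rcases ha with rfl | rfl
  · exact h_of_comm h01 hcomm y
  · exact h_of_comm (NR.symm' h01) (fun y => (hcomm y).symm) y

theorem valid11 (hf : ∀ x y, f x y = f y x) (S : ℕ → Str f)
    (h1 : ∀ y, (S 1).h ((S 0).c (((S 0).by (S 2)).c ((S 1).c (((S 0).by (S 2)).c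
      ((S 0).c y))))) = (S 1).h y)
    (h2 : ∀ y, (S 0).h ((S 1).c (((S 1).by (S 2)).c ((S 0).c (((S 1).by (S 2)).c
      ((S 1).c y))))) = (S 0).h y) (L : Lab)
    (hL : L.links.all (okLink extra11) = true) : L.Valid S := by
  intro a ha y
  refine okLink_sound hf S extra11 ?_ (List.all_eq_true.1 hL a ha) y
  intro a ha y
  simp only [extra11, List.mem_cons, List.not_mem_nil, or_false] at ha
  rcases ha with rfl | rfl
  · exact h1 y
  · exact h2 y

/-! ### The machine statements -/

/-- The hypothesis refuted by the master certificate for commuting structures. -/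
def pat128 (L : Lab) : List ℕ :=
  [ng (aL L 0 0 0), ng (aL L 0 1 0), ng (aL L 0 2 0), ps (aL L 0 2 (t128.walk [0, 1, 2, 1, 0] 0))]

/-- The hypothesis refuted by the master certificate for three structures. -/
def pat11 (L : Lab) : List ℕ :=
  [ng (aL L 0 0 0), ng (aL L 0 1 0), ng (aL L 0 2 0), ps (aL L 0 0 (t11.walk [1] 0)),
    ps (aL L 0 0 (t11.walk [2] 0)), ng (aL L 0 0 (t11.walk [1, 0, 1, 2] 0))]

theorem val_run {t : Tab} {L : Lab} {S : ℕ → Str f} {nr : List (ℕ × ℕ)} (C : Ctx t L S nr) (x : V)
    (i : ℕ) (w : List ℕ) : val t S x x true (aL L 0 i (t.walk w 0)) = (S (i % 3)).h (run S w x) := by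
  rw [val_L x x true C.hc 0 i _ (C.ht.walk_lt w C.ht.npos), C.ht.run_zero]
  rfl

theorem val_zero {t : Tab} {L : Lab} {S : ℕ → Str f} {nr : List (ℕ × ℕ)} (C : Ctx t L S nr) (x : V)
    (i : ℕ) : val t S x x true (aL L 0 i 0) = (S (i % 3)).h x := val_run C x i []

theorem xor_true_of_ne {a b : Bool} (h : a ≠ b) : xor a b = true := by
  revert h; cases a <;> cases b <;> simp

/-- The statement about commuting structures follows from the master certificate. -/
theorem CC_of (hf : ∀ x y, f x y = f y x) (L : Lab) (hc : Lab.check t128 L = true)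
    (hL : L.links.all (okLink extra128) = true)
    (hm : ∀ S : ℕ → Str f, Ctx t128 L S nrp → ∀ x : V,
      ¬ ∀ l ∈ pat128 L, litT (val t128 S x x true) l) : CC f := by
  intro A B D hcomm hAB hAD hBD x
  by_contra hne
  set S := trip A B D x with hS
  have hcomm' : ∀ y, (S 0).c ((S 1).c y) = (S 1).c ((S 0).c y) := by
    intro y
    rw [hS, trip0, trip1, norm_c, norm_c]
    exact hcomm y
  have ht : t128.Sound S := sound128 hf S hcomm'
  have C : Ctx t128 L S nrp := {
    hf := hf
    ht := ht
    hc := fun i v hv y => Lab.check_sound hc ht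
      (valid128 hf S (norm_NR hAB x) hcomm' L hL) i v hv y
    hnr := trip_nr hAB hAD hBD x }
  refine hm S C x ?_
  intro l hl
  simp only [pat128, List.mem_cons, List.not_mem_nil, or_false] at hl
  rcases hl with rfl | rfl | rfl | rfl
  · rw [litT_ng, val_zero C]; exact trip_h A B D x _
  · rw [litT_ng, val_zero C]; exact trip_h A B D x _
  · rw [litT_ng, val_zero C]; exact trip_h A B D x _
  · rw [litT_ps, val_run C]
    change (norm D x).h ((norm A x).c ((norm B x).c ((norm D x).c ((norm B x).c
      ((norm A x).c x))))) = true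
    rw [norm_h, norm_c, norm_c, norm_c]
    exact xor_true_of_ne hne

/-- The weak triple theorem with additional hypotheses follows from the master certificate. -/
theorem VF11_of (hf : ∀ x y, f x y = f y x) (L : Lab) (hc : Lab.check t11 L = true)
    (hL : L.links.all (okLink extra11) = true)
    (hm : ∀ S : ℕ → Str f, Ctx t11 L S nrp → ∀ x : V,
      ¬ ∀ l ∈ pat11 L, litT (val t11 S x x true) l) : VF11 f := by
  intro P Q R hPQ hPR hQR _ h1 h2 x hQ hR hcon
  set S := trip P Q R x with hS
  have h1' : ∀ y, (S 1).h ((S 0).c (((S 0).by (S 2)).c ((S 1).c (((S 0).by (S 2)).c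
      ((S 0).c y))))) = (S 1).h y := by
    intro y
    have := h1 y
    simp only [Str.by_c] at this ⊢
    rw [hS, trip0, trip1, trip2, norm_h, norm_h, norm_c, norm_c, norm_c, this]
  have h2' : ∀ y, (S 0).h ((S 1).c (((S 1).by (S 2)).c ((S 0).c (((S 1).by (S 2)).c
      ((S 1).c y))))) = (S 0).h y := by
    intro y
    have := h2 y
    simp only [Str.by_c] at this ⊢
    rw [hS, trip0, trip1, trip2, norm_h, norm_h, norm_c, norm_c, norm_c, this]
  have ht : t11.Sound S := sound11 hf S h1' h2'
  have C : Ctx t11 L S nrp := {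
    hf := hf
    ht := ht
    hc := fun i v hv y => Lab.check_sound hc ht (valid11 hf S h1' h2' L hL) i v hv y
    hnr := trip_nr hPQ hPR hQR x }
  refine hm S C x ?_
  intro l hl
  simp only [pat11, List.mem_cons, List.not_mem_nil, or_false] at hl
  rcases hl with rfl | rfl | rfl | rfl | rfl | rfl
  · rw [litT_ng, val_zero C]; exact trip_h P Q R x _
  · rw [litT_ng, val_zero C]; exact trip_h P Q R x _
  · rw [litT_ng, val_zero C]; exact trip_h P Q R x _
  · rw [litT_ps, val_run C]
    change (norm P x).h ((norm Q x).c x) = true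
    rw [norm_h, norm_c]
    exact xor_true_of_ne hQ
  · rw [litT_ps, val_run C]
    change (norm P x).h ((norm R x).c x) = true
    rw [norm_h, norm_c]
    exact xor_true_of_ne hR
  · rw [litT_ng, val_run C]
    change (norm P x).h ((norm R x).c ((norm Q x).c ((norm P x).c ((norm Q x).c x)))) = false
    rw [norm_h, norm_c, norm_c, norm_c, hcon]
    simp

end Pool.Agent.BG.Cert
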